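import Mathlib
import Pool.Agent.X36.Fa04Lower
import Pool.Agent.X36.Fa04Upper

/-!
# The inequality `a_n^{1,2,3}(321) ≤ a_n^{1,2,3}(231)` fails for `n = 38`

* Upper bound for the pattern `231`: such a permutation is determined by the position `k` of its
  largest value; the block of the last `n - k` positions is either decreasing or consists of a
  3-cycle `k → n - 1 → e → k` and a permutation of two intervals with a nested structure.
* Lower bound for the pattern `321`: the permutations are built one element at a time, with a queue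
  of positions waiting for an image and a queue of values waiting for a preimage.
-/

set_option autoImplicit false

namespace Pool.Agent.Results.MP_fa04ef_co.FailAt38

/-- The permutation `π` of `Fin n` contains the pattern `σ`: there are positions
`i 0 < i 1 < i 2` whose values under `π` are in the same relative order as `σ 0, σ 1, σ 2`. -/
def Contains {n : ℕ} (π : Equiv.Perm (Fin n)) (σ : Equiv.Perm (Fin 3)) : Prop :=
  ∃ i : Fin 3 → Fin n, StrictMono i ∧ ∀ a b : Fin 3, π (i a) < π (i b) ↔ σ a < σ b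

/-- `a n S σ`: the number of permutations of `n` points that avoid `σ` and all of whose cycles have
length in `S` (`Function.minimalPeriod π x` is the length of the cycle of `π` through `x`). -/
noncomputable def a (n : ℕ) (S : Set ℕ) (σ : Equiv.Perm (Fin 3)) : ℕ :=
  {π : Equiv.Perm (Fin n) | ¬ Contains π σ ∧ ∀ x, Function.minimalPeriod π x ∈ S}.ncard

/-- the pattern `123` -/
def p123 : Equiv.Perm (Fin 3) := Equiv.refl _

/-- the pattern `132` -/
def p132 : Equiv.Perm (Fin 3) := ⟨![0, 2, 1], ![0, 2, 1], by decide, by decide⟩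

/-- the pattern `321` -/
def p321 : Equiv.Perm (Fin 3) := ⟨![2, 1, 0], ![2, 1, 0], by decide, by decide⟩

/-- the pattern `231` -/
def p231 : Equiv.Perm (Fin 3) := ⟨![1, 2, 0], ![2, 0, 1], by decide, by decide⟩

open Pool.Agent.X36.Fa04

/-- a permutation of `Fin n` as a map of naturals -/
def toN {n : ℕ} (π : Equiv.Perm (Fin n)) : ℕ → ℕ := fun z => if h : z < n then (π ⟨z, h⟩ : ℕ) else 0

theorem toN_lt {n : ℕ} (π : Equiv.Perm (Fin n)) {z : ℕ} (h : z < n) :
    toN π z = (π ⟨z, h⟩ : ℕ) := by simp [toN, h]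

theorem toN_val {n : ℕ} (π : Equiv.Perm (Fin n)) (x : Fin n) : toN π x = (π x : ℕ) := by
  simp [toN]

theorem toN_inj (n : ℕ) : Function.Injective (toN (n := n)) := by
  intro π ρ h
  ext x
  have := congrFun h x
  rwa [toN_val, toN_val] at this

theorem upper (n : ℕ) :
    {π : Equiv.Perm (Fin n) | ¬ Contains π p231 ∧
      ∀ x, Function.minimalPeriod π x ∈ ({1, 2, 3} : Set ℕ)}.encard ≤ (X n).encard := by
  refine Set.encard_le_encard_of_injOn (f := toN) ?_ ((toN_inj n).injOn)
  rintro π ⟨hav, hcyc⟩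
  show Val (Finset.Ico 0 n) (toN π)
  refine ⟨?_, ?_, ?_, ?_, ?_⟩
  · intro x hx
    rw [Finset.mem_Ico] at hx
    have : ¬ x < n := by omega
    simp [toN, this]
  · intro x hx
    rw [Finset.mem_Ico] at hx
    rw [toN_lt π hx.2, Finset.mem_Ico]
    exact ⟨Nat.zero_le _, (π ⟨x, hx.2⟩).isLt⟩
  · intro x hx y hy hxy
    rw [Finset.mem_Ico] at hx hy
    rw [toN_lt π hx.2, toN_lt π hy.2] at hxy
    have := π.injective (Fin.ext hxy)
    exact congrArg Fin.val this
  · intro x hx y hy z hz hxy hyz
    rw [Finset.mem_Ico] at hx hy hz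
    rw [toN_lt π hx.2, toN_lt π hy.2, toN_lt π hz.2]
    rintro ⟨h1, h2⟩
    apply hav
    refine ⟨![⟨x, hx.2⟩, ⟨y, hy.2⟩, ⟨z, hz.2⟩], ?_, ?_⟩
    · have hxy' : (⟨x, hx.2⟩ : Fin n) < ⟨y, hy.2⟩ := hxy
      have hyz' : (⟨y, hy.2⟩ : Fin n) < ⟨z, hz.2⟩ := hyz
      have hxz' : (⟨x, hx.2⟩ : Fin n) < ⟨z, hz.2⟩ := lt_trans hxy' hyz'
      intro u v huv
      fin_cases u <;> fin_cases v <;>
        first
          | exact hxy'
          | exact hyz'
          | exact hxz'
          | exact absurd huv (by decide)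
    · have hCA : π ⟨z, hz.2⟩ < π ⟨x, hx.2⟩ := h1
      have hAB : π ⟨x, hx.2⟩ < π ⟨y, hy.2⟩ := h2
      have hCB : π ⟨z, hz.2⟩ < π ⟨y, hy.2⟩ := lt_trans hCA hAB
      intro u v
      fin_cases u <;> fin_cases v <;>
        first
          | exact iff_of_true hCA (by decide)
          | exact iff_of_true hAB (by decide)
          | exact iff_of_true hCB (by decide)
          | exact iff_of_false (lt_irrefl _) (by decide)
          | exact iff_of_false (lt_asymm hCA) (by decide)
          | exact iff_of_false (lt_asymm hAB) (by decide)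
          | exact iff_of_false (lt_asymm hCB) (by decide)
  · intro x hx
    rw [Finset.mem_Ico] at hx
    have h1 := Function.iterate_minimalPeriod (f := π) (x := ⟨x, hx.2⟩)
    have e0 : toN π x = (π ⟨x, hx.2⟩ : ℕ) := toN_lt π hx.2
    have e1 : toN π (toN π x) = (π (π ⟨x, hx.2⟩) : ℕ) := by rw [e0, toN_val]
    have e2 : toN π (toN π (toN π x)) = (π (π (π ⟨x, hx.2⟩)) : ℕ) := by rw [e1, toN_val]
    rw [e2, e1]
    rcases hcyc ⟨x, hx.2⟩ with h | h | h
    · rw [h] at h1
      simp only [Function.iterate_one] at h1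
      left; rw [h1, h1]
    · rw [h] at h1
      left
      exact congrArg Fin.val h1
    · rw [Set.mem_singleton_iff] at h
      rw [h] at h1
      right
      exact congrArg Fin.val h1

/-- the pair of maps (shifted by one) of a permutation and its inverse -/
def th {n : ℕ} (π : Equiv.Perm (Fin n)) : (ℕ → ℕ) × (ℕ → ℕ) :=
  (fun z => if h : 1 ≤ z ∧ z ≤ n then (π ⟨z - 1, by omega⟩ : ℕ) + 1 else 0,
   fun z => if h : 1 ≤ z ∧ z ≤ n then (π.symm ⟨z - 1, by omega⟩ : ℕ) + 1 else 0)

theorem lower (n : ℕ) : (XA n []).encard ≤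
    {π : Equiv.Perm (Fin n) | ¬ Contains π p321 ∧
      ∀ x, Function.minimalPeriod π x ∈ ({1, 2, 3} : Set ℕ)}.encard := by
  refine le_trans (Set.encard_le_encard (t := th '' {π : Equiv.Perm (Fin n) | ¬ Contains π p321 ∧
      ∀ x, Function.minimalPeriod π x ∈ ({1, 2, 3} : Set ℕ)}) ?_) (Set.encard_image_le _ _)
  intro p hp
  have hfr := fresh hp (by simp)
  obtain ⟨h1, h2, h3⟩ := hp
  have hQ : Q n p.1 = [] := by
    unfold wd at h3
    exact List.map_eq_nil_iff.1 h3
  have hnf : ∀ z, 1 ≤ z → z ≤ n → p.1 z ≠ 0 := by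
    intro z hz1 hzt hz
    have : z ∈ Q n p.1 := mem_Q.2 ⟨hz1, hzt, hz⟩
    rw [hQ] at this; simp at this
  have hng : ∀ z, 1 ≤ z → z ≤ n → p.2 z ≠ 0 := by
    intro z hz1 hzt hz
    exact hnf z hz1 hzt (hfr.2 z hz1 hzt hz)
  have F : ∀ i : Fin n, p.1 (i + 1) ≠ 0 ∧ p.1 (i + 1) ≤ n ∧ p.2 (p.1 (i + 1)) = i + 1 := by
    intro i
    have hi := i.isLt
    have a1 := hnf (i + 1) (by omega) (by omega)
    have a2 := h1.fg _ a1
    exact ⟨a1, a2.2.2.1, a2.2.2.2⟩
  have G : ∀ i : Fin n, p.2 (i + 1) ≠ 0 ∧ p.2 (i + 1) ≤ n ∧ p.1 (p.2 (i + 1)) = i + 1 := by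
    intro i
    have hi := i.isLt
    have a1 := hng (i + 1) (by omega) (by omega)
    have a2 := h1.gf _ a1
    exact ⟨a1, a2.2.2.1, a2.2.2.2⟩
  let π : Equiv.Perm (Fin n) :=
    { toFun := fun i => ⟨p.1 (i + 1) - 1, by have := F i; omega⟩
      invFun := fun i => ⟨p.2 (i + 1) - 1, by have := G i; omega⟩
      left_inv := by
        intro i
        apply Fin.ext
        have := F i
        have e : p.1 (i + 1) - 1 + 1 = p.1 (i + 1) := by omega
        simp only [e]
        omega
      right_inv := by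
        intro i
        apply Fin.ext
        have := G i
        have e : p.2 (i + 1) - 1 + 1 = p.2 (i + 1) := by omega
        simp only [e]
        omega }
  have hπ : ∀ i : Fin n, ((π i : Fin n) : ℕ) + 1 = p.1 (i + 1) := by
    intro i
    have := F i
    show p.1 (i + 1) - 1 + 1 = p.1 (i + 1)
    omega
  have hπs : ∀ i : Fin n, ((π.symm i : Fin n) : ℕ) + 1 = p.2 (i + 1) := by
    intro i
    have := G i
    show p.2 (i + 1) - 1 + 1 = p.2 (i + 1)
    omega
  -- no decreasing pair of the same type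
  have pair : ∀ x y : ℕ, 1 ≤ x → y ≤ n → x < y → p.1 y < p.1 x →
      (x ≤ p.1 x → ¬ y ≤ p.1 y) ∧ (¬ x ≤ p.1 x → y ≤ p.1 y) := by
    intro x y hx1 hyn hxy hlt
    refine ⟨?_, ?_⟩
    · intro hx hy
      have := h1.mf x y hx hy hxy
      omega
    · intro hx
      by_contra hy
      have fx := h1.fg x (hnf x hx1 (by omega))
      have fy := h1.fg y (hnf y (by omega) hyn)
      have := h1.mg (p.1 y) (p.1 x) (by rw [fy.2.2.2]; omega) (by rw [fx.2.2.2]; omega) hlt
      rw [fy.2.2.2, fx.2.2.2] at this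
      omega
  refine ⟨π, ⟨?_, ?_⟩, ?_⟩
  · rintro ⟨i, hi, hord⟩
    have i01 : i 0 < i 1 := hi (by decide)
    have i12 : i 1 < i 2 := hi (by decide)
    have o1 : π (i 1) < π (i 0) := (hord 1 0).2 (by decide)
    have o2 : π (i 2) < π (i 1) := (hord 2 1).2 (by decide)
    rw [Fin.lt_def] at i01 i12 o1 o2
    have e0 := hπ (i 0)
    have e1 := hπ (i 1)
    have e2 := hπ (i 2)
    have l2 := (i 2).isLt
    have q01 := pair (i 0 + 1) (i 1 + 1) (by omega) (by omega) (by omega) (by omega)
    have q12 := pair (i 1 + 1) (i 2 + 1) (by omega) (by omega) (by omega) (by omega)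
    have q02 := pair (i 0 + 1) (i 2 + 1) (by omega) (by omega) (by omega) (by omega)
    tauto
  · intro i
    have hi := i.isLt
    have f1 := F i
    have f2 := F (π i)
    rw [hπ] at f2
    have hc := h1.cyc (i + 1) f1.1 f2.1
    have g1 : ((π (π i) : Fin n) : ℕ) + 1 = p.1 (p.1 (i + 1)) := by rw [hπ (π i), hπ i]
    have g2 : ((π (π (π i)) : Fin n) : ℕ) + 1 = p.1 (p.1 (p.1 (i + 1))) := by
      rw [hπ (π (π i)), g1]
    rcases hc with hc | hc
    · have hp2 : Function.IsPeriodicPt π 2 i := by
        show π (π i) = i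
        apply Fin.ext
        omega
      have := hp2.minimalPeriod_dvd
      rcases (Nat.dvd_prime Nat.prime_two).1 this with h | h
      · rw [h]; simp
      · rw [h]; simp
    · have hp3 : Function.IsPeriodicPt π 3 i := by
        show π (π (π i)) = i
        apply Fin.ext
        omega
      have := hp3.minimalPeriod_dvd
      rcases (Nat.dvd_prime Nat.prime_three).1 this with h | h
      · rw [h]; simp
      · rw [h]; simp
  · apply Prod.ext
    · funext z
      by_cases hz : 1 ≤ z ∧ z ≤ n
      · have hzz : z - 1 < n := by omega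
        have := hπ ⟨z - 1, hzz⟩
        have e : z - 1 + 1 = z := by omega
        simp only [e] at this
        simp only [th, hz, and_self, dif_pos]
        exact this
      · have : p.1 z = 0 := by
          by_contra h0
          have := h1.fg z h0
          omega
        simp only [th, hz, dif_neg, not_false_eq_true, this]
    · funext z
      by_cases hz : 1 ≤ z ∧ z ≤ n
      · have hzz : z - 1 < n := by omega
        have := hπs ⟨z - 1, hzz⟩
        have e : z - 1 + 1 = z := by omega
        simp only [e] at this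
        simp only [th, hz, and_self, dif_pos]
        exact this
      · have : p.2 z = 0 := by
          by_contra h0
          have := h1.gf z h0
          omega
        simp only [th, hz, dif_neg, not_false_eq_true, this]

theorem a231_le : a 38 {1, 2, 3} p231 ≤ 111917065496883 := by
  have h := le_trans (upper 38) upper38
  unfold a
  rw [← (Set.toFinite _).cast_ncard_eq] at h
  exact_mod_cast h

theorem le_a321 : 112879056545923 ≤ a 38 {1, 2, 3} p321 := by
  have h := le_trans lower38 (lower 38)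
  unfold a
  rw [← (Set.toFinite _).cast_ncard_eq] at h
  exact_mod_cast h

/-- **Main result.** `a_38^{1,2,3}(321) > a_38^{1,2,3}(231)`; so it is not true that the four
inequalities of Q1 hold for all `n ≥ 1`. -/
theorem result :
    a 38 {1, 2, 3} p231 < a 38 {1, 2, 3} p321 ∧
    ¬ ∀ n : ℕ, 1 ≤ n →
      a n {1, 3} p132 ≤ a n {1, 3} p321 ∧
      a n {1, 2, 3} p123 ≤ a n {1, 2, 3} p132 ∧
      a n {1, 2, 3} p132 ≤ a n {1, 2, 3} p321 ∧
      a n {1, 2, 3} p321 ≤ a n {1, 2, 3} p231 := by
  have h : a 38 {1, 2, 3} p231 < a 38 {1, 2, 3} p321 :=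
    lt_of_le_of_lt a231_le (lt_of_lt_of_le (by norm_num) le_a321)
  refine ⟨h, fun hall => ?_⟩
  have := (hall 38 (by norm_num)).2.2.2
  omega

end Pool.Agent.Results.MP_fa04ef_co.FailAt38
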